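import Mathlib

set_option autoImplicit false

open Set Filter Topology

namespace Pool.Agent.Lib.P34c5b1

/-- Padded evaluation of a finite 0-1 sequence. -/
def ev (τ : List Bool) (i : ℕ) : Bool := τ.getD i false

/-- The initial segment of length `k` of `z`. -/
def node (z : ℕ → Bool) (k : ℕ) : List Bool := (List.range k).map z

@[simp] theorem length_node (z : ℕ → Bool) (k : ℕ) : (node z k).length = k := by simp [node]

theorem ev_node (z : ℕ → Bool) {k i : ℕ} (h : i < k) : ev (node z k) i = z i := by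
  simp [ev, node, List.getD_eq_getElem?_getD, h]

/-- A family of continuum many independent maps `ℕ → 2^ℕ`. -/
theorem exists_indep : ∃ h : (ℕ → Bool) → ℕ → (ℕ → Bool),
    ∀ (Z : Finset (ℕ → Bool)) (σ : (ℕ → Bool) → (ℕ → Bool)) (k : ℕ),
      {n | ∀ z ∈ Z, ∀ i < k, h z n i = σ z i}.Infinite := by
  classical
  let N := Σ m : ℕ, ((Fin m → Bool) → (Fin m → Bool))
  have hN : Infinite N := by
    refine Infinite.of_injective (fun m : ℕ => (⟨m, fun w => w⟩ : N)) ?_
    intro m m' h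
    exact congrArg Sigma.fst h
  obtain ⟨hd⟩ := nonempty_denumerable N
  let e : N ≃ ℕ := Denumerable.eqv N
  let h : (ℕ → Bool) → ℕ → (ℕ → Bool) := fun z n i =>
    if hi : i < (e.symm n).1 then (e.symm n).2 (fun j => z j) ⟨i, hi⟩ else false
  refine ⟨h, fun Z σ k => ?_⟩
  -- a level at which the members of `Z` are distinguished
  have hev : ∀ᶠ m in atTop, ∀ z ∈ Z, ∀ z' ∈ Z, z ≠ z' → ∃ i < m, z i ≠ z' i := by
    refine (Filter.eventually_all_finset Z).2 fun z _ =>
      (Filter.eventually_all_finset Z).2 fun z' _ => ?_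
    by_cases hz : z = z'
    · exact Filter.Eventually.of_forall fun m hm => absurd hz hm
    · obtain ⟨i, hi⟩ := Function.ne_iff.1 hz
      filter_upwards [eventually_gt_atTop i] with m hm _
      exact ⟨i, hm, hi⟩
  obtain ⟨m₀, hm₀⟩ := (hev.and (eventually_ge_atTop k)).exists_forall_of_atTop
  -- the functions
  let φ : ∀ m : ℕ, (Fin m → Bool) → (Fin m → Bool) := fun m w j =>
    if hw : ∃ z ∈ Z, (fun j : Fin m => z j) = w then σ hw.choose j else false
  have hφ : ∀ m ≥ m₀, ∀ z ∈ Z, ∀ j : Fin m, φ m (fun j => z j) j = σ z j := by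
    intro m hm z hz j
    have hw : ∃ z' ∈ Z, (fun j : Fin m => z' j) = fun j : Fin m => z j := ⟨z, hz, rfl⟩
    have h1 := hw.choose_spec
    have h2 : hw.choose = z := by
      by_contra hne
      obtain ⟨i, hi, hi'⟩ := (hm₀ m hm).1 _ h1.1 z hz hne
      exact hi' (congrFun h1.2 ⟨i, hi⟩)
    show (if hw : ∃ z' ∈ Z, (fun j : Fin m => z' j) = fun j : Fin m => z j then
      σ hw.choose j else false) = σ z j
    rw [dif_pos hw, h2]
  let g : ℕ → ℕ := fun i => e ⟨m₀ + i, φ (m₀ + i)⟩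
  have hg : Function.Injective g := by
    intro a b hab
    have h1 := e.injective hab
    have h2 : m₀ + a = m₀ + b := congrArg Sigma.fst h1
    omega
  refine Set.infinite_of_injective_forall_mem hg fun a => ?_
  intro z hz i hi
  have hk : k ≤ m₀ + a := (hm₀ _ (Nat.le_add_right _ _)).2
  show (if hi : i < (e.symm (g a)).1 then (e.symm (g a)).2 (fun j => z j) ⟨i, hi⟩ else false)
    = σ z i
  have h3 : e.symm (g a) = ⟨m₀ + a, φ (m₀ + a)⟩ := e.symm_apply_apply _
  rw [h3]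
  have hi' : i < m₀ + a := lt_of_lt_of_le hi hk
  rw [dif_pos hi']
  exact hφ _ (Nat.le_add_right _ _) z hz ⟨i, hi'⟩

/-- The independent family. -/
noncomputable def h : (ℕ → Bool) → ℕ → (ℕ → Bool) := exists_indep.choose

theorem h_spec (Z : Finset (ℕ → Bool)) (σ : (ℕ → Bool) → (ℕ → Bool)) (k : ℕ) :
    {n | ∀ z ∈ Z, ∀ i < k, h z n i = σ z i}.Infinite := exists_indep.choose_spec Z σ k

/-- The sequence of subsets of `ℕ` coded by `x`. -/
def W (x : ℕ → Bool) (j : ℕ) : Set ℕ := {n | x (Nat.pair j n) = true}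

theorem exists_code (V : ℕ → Set ℕ) : ∃ x : ℕ → Bool, ∀ j, W x j = V j := by
  classical
  refine ⟨fun m => decide ((Nat.unpair m).2 ∈ V (Nat.unpair m).1), fun j => ?_⟩
  ext n
  simp [W, Nat.unpair_pair]

/-- `S` meets every basic clopen set of level `k` under `h z`. -/
def KDense (z : ℕ → Bool) (k : ℕ) (S : Set ℕ) : Prop :=
  ∀ σ : Fin k → Bool, ∃ n ∈ S, ∀ i : Fin k, h z n i = σ i

theorem KDense.mono {z : ℕ → Bool} {k : ℕ} {S S' : Set ℕ} (hS : KDense z k S) (h : S ⊆ S') :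
    KDense z k S' := fun σ => by
  obtain ⟨n, hn, h1⟩ := hS σ
  exact ⟨n, h hn, h1⟩

theorem KDense.le {z : ℕ → Bool} {k k' : ℕ} {S : Set ℕ} (hS : KDense z k S) (hk : k' ≤ k) :
    KDense z k' S := fun σ => by
  obtain ⟨n, hn, h1⟩ := hS fun i => if hi : (i : ℕ) < k' then σ ⟨i, hi⟩ else false
  refine ⟨n, hn, fun i => ?_⟩
  have := h1 ⟨i, i.2.trans_le hk⟩
  simpa using this

theorem exists_A (z x : ℕ → Bool) : ∃ A : Set (List Bool × ℕ),
    (∀ d ∈ A, d.1 = node z d.1.length ∧ d.2 ∈ W x d.1.length) ∧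
    (∀ m, {d ∈ A | d.1.length ≤ m}.Finite) ∧
    (∀ i, {d ∈ A | h z d.2 i ≠ x i}.Finite) ∧
    ((∀ m, ∃ j ≥ m, KDense z m (W x j)) → A.Infinite) := by
  by_cases hgood : ∀ m, ∃ j ≥ m, KDense z m (W x j)
  · have h1 : ∀ m, ∃ j ≥ m, ∃ n ∈ W x j, ∀ i < m, h z n i = x i := by
      intro m
      obtain ⟨j, hj, hd⟩ := hgood m
      obtain ⟨n, hn, hn'⟩ := hd fun i => x i
      exact ⟨j, hj, n, hn, fun i hi => hn' ⟨i, hi⟩⟩
    choose j hj n hn hx using h1
    refine ⟨Set.range fun m => (node z (j m), n m), ?_, ?_, ?_, ?_⟩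
    · rintro _ ⟨m, rfl⟩
      simp only [length_node]
      exact ⟨trivial, hn m⟩
    · intro m
      refine ((Set.finite_Iic m).image fun m => (node z (j m), n m)).subset ?_
      rintro _ ⟨⟨m', rfl⟩, hm'⟩
      simp only [length_node] at hm'
      exact ⟨m', (hj m').trans hm', rfl⟩
    · intro i
      refine ((Set.finite_Iic i).image fun m => (node z (j m), n m)).subset ?_
      rintro _ ⟨⟨m', rfl⟩, hm'⟩
      refine ⟨m', ?_, rfl⟩
      by_contra hcon
      exact hm' (hx m' i (not_le.1 hcon))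
    · intro _ hfin
      obtain ⟨B, hB⟩ := (hfin.image fun d => d.1.length).bddAbove
      have h2 := hB ⟨_, ⟨B + 1, rfl⟩, rfl⟩
      simp only [length_node] at h2
      have := hj (B + 1)
      omega
  · refine ⟨∅, by simp, by simp, by simp, fun h => absurd h hgood⟩

/-- Indices of the almost disjoint family. -/
abbrev Ix : Type := (ℕ → Bool) × (ℕ → Bool)

/-- The almost disjoint family. -/
noncomputable def A (i : Ix) : Set (List Bool × ℕ) := (exists_A i.1 i.2).choose

theorem A_node (i : Ix) : ∀ d ∈ A i, d.1 = node i.1 d.1.length ∧ d.2 ∈ W i.2 d.1.length :=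
  (exists_A i.1 i.2).choose_spec.1

theorem A_finite_le (i : Ix) (m : ℕ) : {d ∈ A i | d.1.length ≤ m}.Finite :=
  (exists_A i.1 i.2).choose_spec.2.1 m

theorem A_finite_ne (i : Ix) (m : ℕ) : {d ∈ A i | h i.1 d.2 m ≠ i.2 m}.Finite :=
  (exists_A i.1 i.2).choose_spec.2.2.1 m

theorem A_infinite (i : Ix) (hi : ∀ m, ∃ j ≥ m, KDense i.1 m (W i.2 j)) : (A i).Infinite :=
  (exists_A i.1 i.2).choose_spec.2.2.2 hi

theorem A_column (i : Ix) (τ : List Bool) : {d ∈ A i | d.1 = τ}.Finite :=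
  (A_finite_le i τ.length).subset fun _ hd => ⟨hd.1, by rw [hd.2]⟩

theorem A_ad (i i' : Ix) (hne : i ≠ i') : (A i ∩ A i').Finite := by
  by_cases h1 : i.1 = i'.1
  · have h2 : i.2 ≠ i'.2 := fun h2 => hne (Prod.ext h1 h2)
    obtain ⟨m, hm⟩ := Function.ne_iff.1 h2
    refine ((A_finite_ne i m).union (A_finite_ne i' m)).subset ?_
    rintro d ⟨hd, hd'⟩
    by_contra hcon
    simp only [mem_union, mem_ofPred_eq, hd, hd', true_and, not_or, not_not] at hcon
    apply hm
    rw [← hcon.1, ← hcon.2, h1]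
  · obtain ⟨m, hm⟩ := Function.ne_iff.1 h1
    refine (A_finite_le i m).subset ?_
    rintro d ⟨hd, hd'⟩
    refine ⟨hd, ?_⟩
    by_contra hcon
    push Not at hcon
    apply hm
    have e1 := (A_node i d hd).1
    have e2 := (A_node i' d hd').1
    rw [← ev_node i.1 hcon, ← ev_node i'.1 hcon, ← e1, ← e2]

end Pool.Agent.Lib.P34c5b1
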