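import Mathlib
import Pool.Agent.Lib.P34c5b1.Space

set_option autoImplicit false

open Set Filter Topology

namespace Pool.Agent.Lib.P34c5b1

theorem isOpen_eqb {Y : Type*} [TopologicalSpace Y] {f : Y → Bool} (hf : Continuous f) (b : Bool) :
    IsOpen {y | f y = b} := by
  have h1 : IsOpen ({b} : Set Bool) := isOpen_discrete _
  exact h1.preimage hf

/-- The compactum: isolated points, one point for each member of the family, and a point at
infinity. -/
inductive X : Type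
  | pt : List Bool × ℕ → X
  | ad : Ix → X
  | inf : X

open X

instance : TopologicalSpace X where
  IsOpen U := (∀ i, ad i ∈ U → {d ∈ A i | pt d ∉ U}.Finite) ∧
    (inf ∈ U → ∃ F : Set Ix, F.Finite ∧ (∀ i, i ∉ F → ad i ∈ U) ∧
      {d | pt d ∉ U ∧ ∀ i ∈ F, d ∉ A i}.Finite)
  isOpen_univ := ⟨fun i _ => by simp, fun _ => ⟨∅, Set.finite_empty, by simp, by simp⟩⟩
  isOpen_inter := by
    rintro U V ⟨hU, hU'⟩ ⟨hV, hV'⟩
    refine ⟨fun i hi => ?_, fun hi => ?_⟩
    · refine ((hU i hi.1).union (hV i hi.2)).subset ?_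
      rintro d ⟨hd, hd'⟩
      by_cases h1 : pt d ∈ U
      · exact Or.inr ⟨hd, fun h2 => hd' ⟨h1, h2⟩⟩
      · exact Or.inl ⟨hd, h1⟩
    · obtain ⟨F, hF, hF1, hF2⟩ := hU' hi.1
      obtain ⟨G, hG, hG1, hG2⟩ := hV' hi.2
      refine ⟨F ∪ G, hF.union hG, fun i hi => ⟨hF1 i fun h => hi (Or.inl h),
        hG1 i fun h => hi (Or.inr h)⟩, ?_⟩
      refine (hF2.union hG2).subset ?_
      rintro d ⟨hd, hd'⟩
      by_cases h1 : pt d ∈ U
      · exact Or.inr ⟨fun h2 => hd ⟨h1, h2⟩, fun i hi => hd' i (Or.inr hi)⟩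
      · exact Or.inl ⟨h1, fun i hi => hd' i (Or.inl hi)⟩
  isOpen_sUnion := by
    intro S hS
    refine ⟨?_, ?_⟩
    · rintro i ⟨U, hU, hi⟩
      refine ((hS U hU).1 i hi).subset ?_
      rintro d ⟨hd, hd'⟩
      exact ⟨hd, fun h => hd' ⟨U, hU, h⟩⟩
    · rintro ⟨U, hU, hi⟩
      obtain ⟨F, hF, hF1, hF2⟩ := (hS U hU).2 hi
      refine ⟨F, hF, fun i hi => ⟨U, hU, hF1 i hi⟩, hF2.subset ?_⟩
      rintro d ⟨hd, hd'⟩
      exact ⟨fun h => hd ⟨U, hU, h⟩, hd'⟩

theorem isOpen_iff (U : Set X) : IsOpen U ↔ (∀ i, ad i ∈ U → {d ∈ A i | pt d ∉ U}.Finite) ∧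
    (inf ∈ U → ∃ F : Set Ix, F.Finite ∧ (∀ i, i ∉ F → ad i ∈ U) ∧
      {d | pt d ∉ U ∧ ∀ i ∈ F, d ∉ A i}.Finite) := Iff.rfl

/-- The basic compact open neighbourhood of `ad i`. -/
def C (i : Ix) : Set X := {p | p = ad i ∨ ∃ d ∈ A i, p = pt d}

theorem mem_C_pt {i : Ix} {d : List Bool × ℕ} : pt d ∈ C i ↔ d ∈ A i := by
  constructor
  · rintro (h | ⟨e, he, h⟩)
    · cases h
    · simp only [X.pt.injEq] at h
      rw [h]
      exact he
  · exact fun h => Or.inr ⟨d, h, rfl⟩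

theorem mem_C_ad {i j : Ix} : ad j ∈ C i ↔ j = i := by
  simp [C]

theorem inf_notMem_C {i : Ix} : inf ∉ C i := by
  simp [C]

theorem isClopen_C (i : Ix) : IsClopen (C i) := by
  constructor
  · rw [← isOpen_compl_iff, isOpen_iff]
    refine ⟨fun j hj => ?_, fun _ => ⟨{i}, Set.finite_singleton i, ?_, ?_⟩⟩
    · refine (A_ad i j ?_).subset ?_
      · rintro rfl
        exact hj (mem_C_ad.2 rfl)
      · rintro d ⟨hd, hd'⟩
        rw [Set.notMem_compl_iff, mem_C_pt] at hd'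
        exact ⟨hd', hd⟩
    · intro j hj
      rw [Set.mem_compl_iff, mem_C_ad]
      exact hj
    · refine Set.finite_empty.subset ?_
      rintro d ⟨hd, hd'⟩
      rw [Set.notMem_compl_iff, mem_C_pt] at hd
      exact absurd hd (hd' i rfl)
  · rw [isOpen_iff]
    refine ⟨fun j hj => ?_, fun h => absurd h inf_notMem_C⟩
    rw [mem_C_ad] at hj
    subst hj
    refine Set.finite_empty.subset ?_
    rintro d ⟨hd, hd'⟩
    rw [mem_C_pt] at hd'
    exact absurd hd hd'

theorem isClopen_pt (d : List Bool × ℕ) : IsClopen ({pt d} : Set X) := by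
  constructor
  · rw [← isOpen_compl_iff, isOpen_iff]
    refine ⟨fun j hj => ?_, fun _ => ⟨∅, Set.finite_empty, ?_, ?_⟩⟩
    · refine (Set.finite_singleton d).subset ?_
      rintro e ⟨_, he⟩
      simpa using he
    · intro j _
      simp
    · refine (Set.finite_singleton d).subset ?_
      rintro e ⟨he, _⟩
      simpa using he
  · rw [isOpen_iff]
    refine ⟨fun j hj => by simp at hj, fun h => by simp at h⟩

theorem exists_clopen (p q : X) (hne : p ≠ q) :
    ∃ U : Set X, IsClopen U ∧ ((p ∈ U ∧ q ∉ U) ∨ (q ∈ U ∧ p ∉ U)) := by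
  cases p with
  | pt d => exact ⟨_, isClopen_pt d, Or.inl ⟨rfl, fun h => hne h.symm⟩⟩
  | ad i =>
    cases q with
    | pt d => exact ⟨_, isClopen_pt d, Or.inr ⟨rfl, hne⟩⟩
    | ad j =>
      refine ⟨_, isClopen_C i, Or.inl ⟨mem_C_ad.2 rfl, ?_⟩⟩
      rw [mem_C_ad]
      rintro rfl
      exact hne rfl
    | inf => exact ⟨_, isClopen_C i, Or.inl ⟨mem_C_ad.2 rfl, inf_notMem_C⟩⟩
  | inf =>
    cases q with
    | pt d => exact ⟨_, isClopen_pt d, Or.inr ⟨rfl, hne⟩⟩
    | ad j => exact ⟨_, isClopen_C j, Or.inr ⟨mem_C_ad.2 rfl, inf_notMem_C⟩⟩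
    | inf => exact absurd rfl hne

instance : T2Space X := by
  refine ⟨fun p q hne => ?_⟩
  obtain ⟨U, hU, ⟨hp, hq⟩ | ⟨hq, hp⟩⟩ := exists_clopen p q hne
  · exact ⟨U, Uᶜ, hU.isOpen, hU.compl.isOpen, hp, hq, disjoint_compl_right⟩
  · exact ⟨Uᶜ, U, hU.compl.isOpen, hU.isOpen, hp, hq, disjoint_compl_left⟩

/-- Neighbourhoods of the point at infinity. -/
theorem of_mem_nhds_inf {O : Set X} (hO : O ∈ 𝓝 (inf : X)) :
    ∃ F : Set Ix, ∃ E : Set (List Bool × ℕ), F.Finite ∧ E.Finite ∧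
      ∀ p, p ∉ O → (∃ i ∈ F, p ∈ C i) ∨ ∃ d ∈ E, p = pt d := by
  obtain ⟨U, hUO, hU, hinf⟩ := mem_nhds_iff.1 hO
  obtain ⟨F, hF, hF1, hF2⟩ := ((isOpen_iff U).1 hU).2 hinf
  refine ⟨F, _, hF, hF2, fun p hp => ?_⟩
  have hpU : p ∉ U := fun h => hp (hUO h)
  cases p with
  | pt d =>
    by_cases h : ∃ i ∈ F, d ∈ A i
    · obtain ⟨i, hi, hd⟩ := h
      exact Or.inl ⟨i, hi, mem_C_pt.2 hd⟩
    · push Not at h
      exact Or.inr ⟨d, ⟨hpU, h⟩, rfl⟩
  | ad i =>
    by_cases h : i ∈ F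
    · exact Or.inl ⟨i, h, mem_C_ad.2 rfl⟩
    · exact absurd (hF1 i h) hpU
  | inf => exact absurd hinf hpU

theorem compl_C_mem (i : Ix) : (C i)ᶜ ∈ 𝓝 (inf : X) :=
  (isClopen_C i).compl.isOpen.mem_nhds inf_notMem_C

theorem compl_pt_mem (d : List Bool × ℕ) : ({pt d}ᶜ : Set X) ∈ 𝓝 (inf : X) :=
  (isClopen_pt d).compl.isOpen.mem_nhds (by simp)

instance : CompactSpace X := by
  refine ⟨isCompact_iff_ultrafilter_le_nhds.2 fun u _ => ?_⟩
  by_cases h1 : ∃ p : X, u = pure p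
  · obtain ⟨p, rfl⟩ := h1
    exact ⟨p, mem_univ p, pure_le_nhds p⟩
  have hfin : ∀ S : Set X, S.Finite → S ∉ u := by
    intro S hS hSu
    obtain ⟨p, _, hp⟩ := Ultrafilter.eq_pure_of_finite_mem hS hSu
    exact h1 ⟨p, hp⟩
  by_cases h2 : ∃ i, C i ∈ u
  · obtain ⟨i, hi⟩ := h2
    refine ⟨ad i, mem_univ _, ?_⟩
    intro O hO
    obtain ⟨U, hUO, hU, hiU⟩ := mem_nhds_iff.1 hO
    have h3 := ((isOpen_iff U).1 hU).1 i hiU
    have h4 : (pt '' {d ∈ A i | pt d ∉ U})ᶜ ∈ u :=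
      Ultrafilter.compl_mem_iff_notMem.2 (hfin _ (h3.image _))
    refine Filter.mem_of_superset (Filter.inter_mem hi h4) ?_
    rintro p ⟨hp, hp'⟩
    apply hUO
    rcases hp with rfl | ⟨d, hd, rfl⟩
    · exact hiU
    · by_contra hcon
      exact hp' ⟨d, ⟨hd, hcon⟩, rfl⟩
  · push Not at h2
    refine ⟨inf, mem_univ _, ?_⟩
    intro O hO
    obtain ⟨F, E, hF, hE, hFE⟩ := of_mem_nhds_inf hO
    have h3 : ⋂ i ∈ F, (C i)ᶜ ∈ u :=
      (Filter.biInter_mem hF).2 fun i _ => Ultrafilter.compl_mem_iff_notMem.2 (h2 i)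
    have h4 : (pt '' E)ᶜ ∈ u := Ultrafilter.compl_mem_iff_notMem.2 (hfin _ (hE.image _))
    refine Filter.mem_of_superset (Filter.inter_mem h3 h4) ?_
    rintro p ⟨hp, hp'⟩
    by_contra hcon
    rcases hFE p hcon with ⟨i, hi, hpi⟩ | ⟨d, hd, rfl⟩
    · exact (mem_iInter₂.1 hp i hi) hpi
    · exact hp' ⟨d, hd, rfl⟩

theorem card_le : Cardinal.mk X ≤ Cardinal.continuum := by
  let f : Option ((List Bool × ℕ) ⊕ Ix) → X := fun o =>
    match o with
    | none => inf
    | some (Sum.inl d) => pt d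
    | some (Sum.inr i) => ad i
  have hf : Function.Surjective f := by
    intro p
    cases p with
    | pt d => exact ⟨some (Sum.inl d), rfl⟩
    | ad i => exact ⟨some (Sum.inr i), rfl⟩
    | inf => exact ⟨none, rfl⟩
  refine (Cardinal.mk_le_of_surjective hf).trans ?_
  rw [Cardinal.mk_option, Cardinal.mk_sum, Cardinal.lift_id, Cardinal.lift_id]
  have h1 : Cardinal.mk (List Bool × ℕ) ≤ Cardinal.continuum :=
    Cardinal.mk_le_aleph0.trans Cardinal.aleph0_le_continuum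
  have h2 : Cardinal.mk Ix ≤ Cardinal.continuum := by
    simp [Ix]
  have h3 : (1 : Cardinal) ≤ Cardinal.continuum :=
    Cardinal.one_le_aleph0.trans Cardinal.aleph0_le_continuum
  exact Cardinal.add_le_of_le Cardinal.aleph0_le_continuum
    (Cardinal.add_le_of_le Cardinal.aleph0_le_continuum h1 h2) h3

/-- Criterion for convergence to the point at infinity. -/
theorem converges_inf {B : ℕ → Set X} (hB : Antitone B)
    (h1 : ∀ d, ∃ m, pt d ∉ B m) (h2 : ∀ i, ∃ m, ad i ∉ B m ∧ {d ∈ A i | pt d ∈ B m}.Finite) :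
    ∀ O ∈ 𝓝 (inf : X), ∃ m, ∀ n ≥ m, B n ⊆ O := by
  -- eventually disjoint from finite sets of isolated points
  have h3 : ∀ E : Set (List Bool × ℕ), E.Finite → ∀ᶠ m in atTop, ∀ d ∈ E, pt d ∉ B m := by
    intro E hE
    refine (Filter.eventually_all_finite hE).2 fun d _ => ?_
    obtain ⟨m, hm⟩ := h1 d
    filter_upwards [eventually_ge_atTop m] with n hn h
    exact hm (hB hn h)
  have h4 : ∀ i, ∀ᶠ m in atTop, Disjoint (C i) (B m) := by
    intro i
    obtain ⟨m, hm, hm'⟩ := h2 i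
    filter_upwards [h3 _ hm', eventually_ge_atTop m] with n hn hn'
    rw [Set.disjoint_left]
    rintro p (rfl | ⟨d, hd, rfl⟩) hp
    · exact hm (hB hn' hp)
    · exact hn d ⟨hd, hB hn' hp⟩ hp
  intro O hO
  obtain ⟨F, E, hF, hE, hFE⟩ := of_mem_nhds_inf hO
  have h5 : ∀ᶠ m in atTop, ∀ i ∈ F, Disjoint (C i) (B m) :=
    (Filter.eventually_all_finite hF).2 fun i _ => h4 i
  obtain ⟨m, hm⟩ := ((h3 E hE).and h5).exists_forall_of_atTop
  refine ⟨m, fun n hn p hp => ?_⟩
  by_contra hcon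
  obtain ⟨hn1, hn2⟩ := hm n hn
  rcases hFE p hcon with ⟨i, hi, hpi⟩ | ⟨d, hd, rfl⟩
  · exact Set.disjoint_left.1 (hn2 i hi) hpi hp
  · exact hn1 d hd hp

/-- Ultrafilters converging to the point at infinity contain a sequence converging to it. -/
theorem ultra_inf (u : Ultrafilter X) (hu : ↑u ≤ 𝓝 (inf : X)) :
    ∃ B : ℕ → Set X, Antitone B ∧ (∀ n, B n ∈ u) ∧
      ∀ O ∈ 𝓝 (inf : X), ∃ m, ∀ n ≥ m, B n ⊆ O := by
  classical
  have hC : ∀ i, (C i)ᶜ ∈ u := fun i => hu (compl_C_mem i)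
  have hpt : ∀ d, ({pt d}ᶜ : Set X) ∈ u := fun d => hu (compl_pt_mem d)
  by_cases ha : {(inf : X)} ∈ u
  · exact ⟨fun _ => {inf}, fun _ _ _ => le_rfl, fun _ => ha, fun O hO =>
      ⟨0, fun _ _ => Set.singleton_subset_iff.2 (mem_of_mem_nhds hO)⟩⟩
  by_cases hb : Set.range ad ∈ u
  · -- the ultrafilter lives on the family
    let g : X → Ix := fun p => match p with
      | ad i => i
      | _ => (fun _ => false, fun _ => false)
    obtain ⟨r, _, hr⟩ := isCompact_iff_ultrafilter_le_nhds.1 (isCompact_univ (X := Ix))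
      (u.map g) (by simp)
    have hr' : Tendsto g u (𝓝 r) := hr
    have hr1 : ∀ i, {p | (g p).1 i = r.1 i} ∈ u := by
      intro i
      have hopen : IsOpen {q : Ix | q.1 i = r.1 i} := by
        have hc : Continuous fun q : Ix => q.1 i := by fun_prop
        exact isOpen_eqb hc _
      exact hr' (hopen.mem_nhds rfl)
    have hr2 : ∀ i, {p | (g p).2 i = r.2 i} ∈ u := by
      intro i
      have hopen : IsOpen {q : Ix | q.2 i = r.2 i} := by
        have hc : Continuous fun q : Ix => q.2 i := by fun_prop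
        exact isOpen_eqb hc _
      exact hr' (hopen.mem_nhds rfl)
    refine ⟨fun n => {p | p ∈ Set.range ad ∧ p ∈ (C r)ᶜ ∧
      (∀ i < n, (g p).1 i = r.1 i) ∧ ∀ i < n, (g p).2 i = r.2 i}, ?_, ?_, ?_⟩
    · rintro m n hmn p ⟨h1, h2, h3, h4⟩
      exact ⟨h1, h2, fun i hi => h3 i (hi.trans_le hmn), fun i hi => h4 i (hi.trans_le hmn)⟩
    · intro n
      have h3 : ⋂ i ∈ Set.Iio n, {p | (g p).1 i = r.1 i} ∈ u :=
        (Filter.biInter_mem (Set.finite_Iio n)).2 fun i _ => hr1 i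
      have h4 : ⋂ i ∈ Set.Iio n, {p | (g p).2 i = r.2 i} ∈ u :=
        (Filter.biInter_mem (Set.finite_Iio n)).2 fun i _ => hr2 i
      refine Filter.mem_of_superset (Filter.inter_mem (Filter.inter_mem hb (hC r))
        (Filter.inter_mem h3 h4)) ?_
      rintro p ⟨⟨h5, h6⟩, h7, h8⟩
      exact ⟨h5, h6, fun i hi => mem_iInter₂.1 h7 i hi, fun i hi => mem_iInter₂.1 h8 i hi⟩
    · apply converges_inf
      · rintro m n hmn p ⟨h1, h2, h3, h4⟩
        exact ⟨h1, h2, fun i hi => h3 i (hi.trans_le hmn), fun i hi => h4 i (hi.trans_le hmn)⟩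
      · rintro d
        refine ⟨0, ?_⟩
        rintro ⟨⟨i, hi⟩, _⟩
        cases hi
      · intro i
        by_cases hir : i = r
        · refine ⟨0, ?_, ?_⟩
          · rintro ⟨_, h, _⟩
            exact h (mem_C_ad.2 hir)
          · refine Set.finite_empty.subset ?_
            rintro d ⟨_, ⟨j, hj⟩, _⟩
            cases hj
        · have : ∃ m, ¬ ((∀ j < m, i.1 j = r.1 j) ∧ ∀ j < m, i.2 j = r.2 j) := by
            by_contra hcon
            push Not at hcon
            apply hir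
            refine Prod.ext (funext fun j => ?_) (funext fun j => ?_)
            · exact (hcon (j + 1)).1 j (Nat.lt_succ_self j)
            · exact (hcon (j + 1)).2 j (Nat.lt_succ_self j)
          obtain ⟨m, hm⟩ := this
          refine ⟨m, ?_, ?_⟩
          · rintro ⟨_, _, h1, h2⟩
            exact hm ⟨h1, h2⟩
          · refine Set.finite_empty.subset ?_
            rintro d ⟨_, ⟨j, hj⟩, _⟩
            cases hj
  -- the ultrafilter lives on the isolated points
  have hrange : Set.range pt ∈ u := by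
    have h1 : (Set.range ad)ᶜ ∈ u := Ultrafilter.compl_mem_iff_notMem.2 hb
    have h2 : ({inf}ᶜ : Set X) ∈ u := Ultrafilter.compl_mem_iff_notMem.2 ha
    refine Filter.mem_of_superset (Filter.inter_mem h1 h2) ?_
    rintro p ⟨hp, hp'⟩
    cases p with
    | pt d => exact ⟨d, rfl⟩
    | ad i => exact absurd ⟨i, rfl⟩ hp
    | inf => exact absurd rfl hp'
  by_cases hc : ∃ τ, {p | ∃ n, p = pt (τ, n)} ∈ u
  · obtain ⟨τ, hτ⟩ := hc
    have hanti : Antitone fun m : ℕ => {p : X | ∃ n ≥ m, p = pt (τ, n)} := by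
      rintro m m' hm p ⟨n, hn, rfl⟩
      exact ⟨n, hm.trans hn, rfl⟩
    refine ⟨fun m => {p | ∃ n ≥ m, p = pt (τ, n)}, hanti, ?_, ?_⟩
    · intro m
      have h3 : ⋂ i ∈ Set.Iio m, ({pt (τ, i)}ᶜ : Set X) ∈ u :=
        (Filter.biInter_mem (Set.finite_Iio m)).2 fun i _ => hpt _
      refine Filter.mem_of_superset (Filter.inter_mem hτ h3) ?_
      rintro p ⟨⟨n, rfl⟩, hp⟩
      refine ⟨n, ?_, rfl⟩
      by_contra hcon
      exact mem_iInter₂.1 hp n (not_le.1 hcon) rfl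
    · apply converges_inf hanti
      · rintro ⟨σ, k⟩
        refine ⟨k + 1, ?_⟩
        rintro ⟨n, hn, h⟩
        simp only [X.pt.injEq, Prod.mk.injEq] at h
        omega
      · intro i
        refine ⟨0, ?_, ?_⟩
        · rintro ⟨n, _, h⟩
          cases h
        · refine (A_column i τ).subset ?_
          rintro d ⟨hd, n, _, h⟩
          simp only [X.pt.injEq] at h
          refine ⟨hd, ?_⟩
          rw [h]
  push Not at hc
  -- the limit branch
  let ν : X → (ℕ → Bool) := fun p => match p with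
    | pt d => ev d.1
    | _ => fun _ => false
  obtain ⟨z, _, hz⟩ := isCompact_iff_ultrafilter_le_nhds.1 (isCompact_univ (X := ℕ → Bool))
    (u.map ν) (by simp)
  have hz' : Tendsto ν u (𝓝 z) := hz
  have hz1 : ∀ i, {p | ν p i = z i} ∈ u := by
    intro i
    have hopen : IsOpen {q : ℕ → Bool | q i = z i} :=
      isOpen_eqb (by fun_prop) _
    exact hz' (hopen.mem_nhds rfl)
  have hlen : ∀ k, {p | ∃ d, p = pt d ∧ k ≤ d.1.length} ∈ u := by
    intro k
    have h3 : ⋂ τ ∈ {τ : List Bool | τ.length < k}, ({p : X | ∃ n, p = pt (τ, n)})ᶜ ∈ u :=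
      (Filter.biInter_mem (List.finite_length_lt Bool k)).2 fun τ _ =>
        Ultrafilter.compl_mem_iff_notMem.2 (hc τ)
    refine Filter.mem_of_superset (Filter.inter_mem hrange h3) ?_
    rintro p ⟨⟨d, rfl⟩, hp⟩
    refine ⟨d, rfl, ?_⟩
    by_contra hcon
    exact mem_iInter₂.1 hp d.1 (not_le.1 hcon) ⟨d.2, rfl⟩
  let T : ℕ → Set X := fun k => {p | ∃ d, p = pt d ∧ k ≤ d.1.length ∧ ∀ i < k, ev d.1 i = z i}
  have hT : ∀ k, T k ∈ u := by
    intro k
    have h3 : ⋂ i ∈ Set.Iio k, {p | ν p i = z i} ∈ u :=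
      (Filter.biInter_mem (Set.finite_Iio k)).2 fun i _ => hz1 i
    refine Filter.mem_of_superset (Filter.inter_mem (hlen k) h3) ?_
    rintro p ⟨⟨d, rfl, hd⟩, hp⟩
    exact ⟨d, rfl, hd, fun i hi => mem_iInter₂.1 hp i hi⟩
  have hTanti : Antitone T := by
    rintro k k' hk p ⟨d, rfl, hd, hd'⟩
    exact ⟨d, rfl, hk.trans hd, fun i hi => hd' i (hi.trans_le hk)⟩
  have hTpt : ∀ d, pt d ∉ T (d.1.length + 1) := by
    rintro d ⟨e, he, he', _⟩
    simp only [X.pt.injEq] at he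
    subst he
    omega
  have hTad : ∀ i k, ad i ∉ T k := by
    rintro i k ⟨d, hd, _⟩
    cases hd
  -- members of the family living on another branch
  have hTne : ∀ i : Ix, i.1 ≠ z → ∃ k, {d ∈ A i | pt d ∈ T k} = ∅ := by
    intro i hi
    obtain ⟨m, hm⟩ := Function.ne_iff.1 hi
    refine ⟨m + 1, Set.eq_empty_iff_forall_notMem.2 ?_⟩
    rintro d ⟨hd, e, he, he1, he2⟩
    simp only [X.pt.injEq] at he
    subst he
    apply hm
    rw [← he2 m (Nat.lt_succ_self m), (A_node i d hd).1]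
    exact (ev_node _ (by omega)).symm
  let Bz : Set X := {p | ∃ d, p = pt d ∧ d.1 = node z d.1.length}
  by_cases hBz : Bz ∈ u
  · -- the limit of `h z`
    let θ : X → (ℕ → Bool) := fun p => match p with
      | pt d => h z d.2
      | _ => fun _ => false
    obtain ⟨x, _, hx⟩ := isCompact_iff_ultrafilter_le_nhds.1 (isCompact_univ (X := ℕ → Bool))
      (u.map θ) (by simp)
    have hx' : Tendsto θ u (𝓝 x) := hx
    have hx1 : ∀ i, {p | θ p i = x i} ∈ u := by
      intro i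
      have hopen : IsOpen {q : ℕ → Bool | q i = x i} :=
        isOpen_eqb (by fun_prop) _
      exact hx' (hopen.mem_nhds rfl)
    let B : ℕ → Set X := fun k => {p | p ∈ T k ∧ p ∈ (C (z, x))ᶜ ∧ ∀ i < k, θ p i = x i}
    have hB : Antitone B := by
      rintro k k' hk p ⟨h1, h2, h3⟩
      exact ⟨hTanti hk h1, h2, fun i hi => h3 i (hi.trans_le hk)⟩
    refine ⟨B, hB, ?_, converges_inf hB ?_ ?_⟩
    · intro k
      have h3 : ⋂ i ∈ Set.Iio k, {p | θ p i = x i} ∈ u :=
        (Filter.biInter_mem (Set.finite_Iio k)).2 fun i _ => hx1 i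
      refine Filter.mem_of_superset (Filter.inter_mem (Filter.inter_mem (hT k) (hC (z, x))) h3) ?_
      rintro p ⟨⟨h5, h6⟩, h7⟩
      exact ⟨h5, h6, fun i hi => mem_iInter₂.1 h7 i hi⟩
    · intro d
      exact ⟨_, fun h => hTpt d h.1⟩
    · intro i
      by_cases h1 : i.1 = z
      · by_cases h2 : i.2 = x
        · refine ⟨0, fun h => hTad i 0 h.1, Set.finite_empty.subset ?_⟩
          rintro d ⟨hd, _, hd', _⟩
          apply hd'
          rw [mem_C_pt]
          have : i = (z, x) := Prod.ext h1 h2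
          rw [← this]
          exact hd
        · obtain ⟨m, hm⟩ := Function.ne_iff.1 h2
          refine ⟨m + 1, fun h => hTad i _ h.1, (A_finite_ne i m).subset ?_⟩
          rintro d ⟨hd, _, _, hd'⟩
          refine ⟨hd, ?_⟩
          have h3 : h z d.2 m = x m := hd' m (Nat.lt_succ_self m)
          rw [h1, h3]
          exact fun h4 => hm h4.symm
      · obtain ⟨k, hk⟩ := hTne i h1
        refine ⟨k, fun h => hTad i _ h.1, Set.finite_empty.subset ?_⟩
        rw [← hk]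
        rintro d ⟨hd, hd', _⟩
        exact ⟨hd, hd'⟩
  · -- off the branch
    let B : ℕ → Set X := fun k => {p | p ∈ T k ∧ p ∉ Bz}
    have hB : Antitone B := by
      rintro k k' hk p ⟨h1, h2⟩
      exact ⟨hTanti hk h1, h2⟩
    refine ⟨B, hB, ?_, converges_inf hB ?_ ?_⟩
    · intro k
      exact Filter.inter_mem (hT k) (Ultrafilter.compl_mem_iff_notMem.2 hBz)
    · intro d
      exact ⟨_, fun h => hTpt d h.1⟩
    · intro i
      by_cases h1 : i.1 = z
      · refine ⟨0, fun h => hTad i 0 h.1, Set.finite_empty.subset ?_⟩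
        rintro d ⟨hd, _, hd'⟩
        apply hd'
        refine ⟨d, rfl, ?_⟩
        rw [← h1]
        exact (A_node i d hd).1
      · obtain ⟨k, hk⟩ := hTne i h1
        refine ⟨k, fun h => hTad i _ h.1, Set.finite_empty.subset ?_⟩
        rw [← hk]
        rintro d ⟨hd, hd', _⟩
        exact ⟨hd, hd'⟩

end Pool.Agent.Lib.P34c5b1
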