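import Mathlib
import Pool.Agent.Lib.P34c5b1.Top

set_option autoImplicit false

open Set Filter Topology

universe u

namespace Pool.Agent.Lib.P34c5b1

open X

theorem mk_branch : Cardinal.mk (ℕ → Bool) = Cardinal.continuum := by simp

/-- Columns converge to the point at infinity. -/
theorem tendsto_column (τ : List Bool) : Tendsto (fun n : ℕ => pt (τ, n)) atTop (𝓝 (inf : X)) := by
  rw [Filter.tendsto_def]
  intro O hO
  obtain ⟨F, E, hF, hE, hFE⟩ := of_mem_nhds_inf hO
  have h1 : {n : ℕ | pt (τ, n) ∉ O}.Finite := by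
    have h2 : (⋃ i ∈ F, {d ∈ A i | d.1 = τ}).Finite :=
      hF.biUnion fun i _ => A_column i τ
    refine ((h2.union hE).image Prod.snd).subset ?_
    intro n hn
    rcases hFE _ hn with ⟨i, hi, hpi⟩ | ⟨d, hd, h⟩
    · exact ⟨(τ, n), Or.inl (mem_iUnion₂.2 ⟨i, hi, mem_C_pt.1 hpi, rfl⟩), rfl⟩
    · simp only [X.pt.injEq] at h
      exact ⟨(τ, n), Or.inr (h ▸ hd), rfl⟩
  rw [← Nat.cofinite_eq_atTop]
  exact h1

variable {K : Type u} [TopologicalSpace K] {f : K → X} {s : List Bool × ℕ → K}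

/-- Cluster points of a column. -/
def Cl (s : List Bool × ℕ → K) (τ : List Bool) : Set K :=
  {y | MapClusterPt y atTop fun n : ℕ => s (τ, n)}

theorem f_Cl (hf : Continuous f) (hs : ∀ d, f (s d) = pt d) {τ : List Bool} {y : K}
    (hy : y ∈ Cl s τ) : f y = inf := by
  have h1 : MapClusterPt (f y) atTop (f ∘ fun n : ℕ => s (τ, n)) :=
    MapClusterPt.continuousAt_comp hf.continuousAt hy
  have h2 : f ∘ (fun n : ℕ => s (τ, n)) = fun n : ℕ => pt (τ, n) := funext fun n => hs _
  rw [h2] at h1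
  have h3 : ClusterPt (f y) (𝓝 (inf : X)) := h1.clusterPt.mono (tendsto_column τ)
  exact eq_of_nhds_neBot h3

theorem claim1 [CompactSpace K] [FirstCountableTopology K] (hf : Continuous f) (hs : ∀ d, f (s d) = pt d) (z : ℕ → Bool) :
    ∃ k, ∀ j ≥ k, ∀ y ∈ Cl s (node z j), ∃ O ∈ 𝓝 y, ¬ KDense z k {n | s (node z j, n) ∈ O} := by
  by_contra hcon
  push Not at hcon
  choose j hj y hy hO using hcon
  -- a convergent subsequence
  obtain ⟨a, _, φ, hφ, ha⟩ := (isCompact_univ (X := K)).tendsto_subseq (x := y)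
    fun n => mem_univ _
  have hja : Tendsto (j ∘ φ) atTop atTop :=
    tendsto_atTop_mono (fun n => (hφ.le_apply (x := n)).trans (hj (φ n))) tendsto_id
  obtain ⟨ψ, hψ, hjψ⟩ := strictMono_subseq_of_tendsto_atTop hja
  obtain ⟨U, hU⟩ := (𝓝 a).exists_antitone_basis
  have ha' : Tendsto (fun n => y (φ (ψ n))) atTop (𝓝 a) := ha.comp hψ.tendsto_atTop
  have hev : ∀ m : ℕ, ∀ᶠ n in atTop, U m ∈ 𝓝 (y (φ (ψ n))) := by
    intro m
    have h1 : interior (U m) ∈ 𝓝 a := interior_mem_nhds.2 (hU.mem m)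
    filter_upwards [ha' h1] with n hn
    exact mem_interior_iff_mem_nhds.1 hn
  obtain ⟨θ, hθ, hUθ⟩ := Filter.extraction_forall_of_eventually hev
  set κ : ℕ → ℕ := fun m => φ (ψ (θ m)) with hκ
  have hκmono : StrictMono κ := hφ.comp (hψ.comp hθ)
  have hJ : StrictMono fun m => j (κ m) := hjψ.comp hθ
  have hκle : ∀ m, m ≤ κ m := fun m => hκmono.le_apply
  -- the sequence of sets
  obtain ⟨x, hx⟩ := exists_code fun l =>
    {n | ∃ m, j (κ m) = l ∧ s (node z l, n) ∈ U m}
  have hinf : (A (z, x)).Infinite := by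
    apply A_infinite
    intro m
    refine ⟨j (κ m), (hκle m).trans (hj (κ m)), ?_⟩
    have h1 := (hO (κ m) (U m) (hUθ m)).le (hκle m)
    refine h1.mono ?_
    intro n hn
    show n ∈ W x (j (κ m))
    rw [hx]
    exact ⟨m, rfl, hn⟩
  have hfa : f a = inf := by
    have h1 : Tendsto (fun n => f (y (φ (ψ n)))) atTop (𝓝 (f a)) :=
      (hf.tendsto a).comp ha'
    have h2 : (fun n => f (y (φ (ψ n)))) = fun _ => (inf : X) :=
      funext fun n => f_Cl hf hs (hy _)
    rw [h2] at h1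
    exact (tendsto_nhds_unique h1 tendsto_const_nhds)
  have hpre : f ⁻¹' (C (z, x))ᶜ ∈ 𝓝 a := by
    apply hf.continuousAt.preimage_mem_nhds
    rw [hfa]
    exact compl_C_mem _
  obtain ⟨m₀, hm₀⟩ := hU.mem_iff.1 hpre
  apply hinf
  refine (A_finite_le (z, x) (j (κ m₀))).subset ?_
  intro d hd
  refine ⟨hd, ?_⟩
  by_contra hcon
  push Not at hcon
  obtain ⟨e1, e2⟩ := A_node (z, x) d hd
  rw [hx] at e2
  obtain ⟨m, hm, hsd⟩ := e2
  have hd' : (node z d.1.length, d.2) = d := Prod.ext e1.symm rfl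
  rw [hd'] at hsd
  have hmm : m₀ ≤ m := by
    by_contra hlt
    have h5 : j (κ m) ≤ j (κ m₀) := hJ.le_iff_le.2 (not_le.1 hlt).le
    omega
  have h3 : s d ∈ f ⁻¹' (C (z, x))ᶜ := hm₀ (hU.antitone hmm hsd)
  apply h3
  rw [hs, mem_C_pt]
  exact hd

/-- Distinct representatives. -/
theorem exists_reps {Y Z : Type*} [Nonempty Z] (t : Finset Y) (S : Y → Set Z) (hS : ∀ y ∈ t, (S y).Infinite) :
    ∃ g : Y → Z, (∀ y ∈ t, g y ∈ S y) ∧ Set.InjOn g t := by
  classical
  induction t using Finset.induction_on with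
  | empty => exact ⟨fun _ => Classical.arbitrary Z, by simp, by simp⟩
  | insert a t ha ih =>
    obtain ⟨g, hg, hg'⟩ := ih fun y hy => hS y (Finset.mem_insert_of_mem hy)
    obtain ⟨w, hw, hw'⟩ := (hS a (Finset.mem_insert_self a t)).exists_notMem_finset (t.image g)
    refine ⟨Function.update g a w, ?_, ?_⟩
    · intro y hy
      rcases Finset.mem_insert.1 hy with rfl | hy
      · simpa using hw
      · have : y ≠ a := fun h => ha (h ▸ hy)
        rw [Function.update_of_ne this]
        exact hg y hy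
    · intro y hy y' hy' h
      rw [Finset.mem_coe, Finset.mem_insert] at hy hy'
      rcases hy with rfl | hy <;> rcases hy' with rfl | hy'
      · rfl
      · have : y' ≠ y := fun h => ha (h ▸ hy')
        rw [Function.update_self, Function.update_of_ne this] at h
        exact absurd (Finset.mem_image.2 ⟨y', hy', h.symm⟩) hw'
      · have : y ≠ y' := fun h => ha (h ▸ hy)
        rw [Function.update_self, Function.update_of_ne this] at h
        exact absurd (Finset.mem_image.2 ⟨y, hy, h⟩) hw'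
      · have h1 : y ≠ a := fun h => ha (h ▸ hy)
        have h2 : y' ≠ a := fun h => ha (h ▸ hy')
        rw [Function.update_of_ne h1, Function.update_of_ne h2] at h
        exact hg' hy hy' h

theorem not_surjective [CompactSpace K] [FirstCountableTopology K] (hf : Continuous f) : ¬ Function.Surjective f := by
  classical
  intro hsurj
  choose s hs using fun d => hsurj (pt d)
  choose k hk using fun z => claim1 hf hs z
  -- an uncountable set of branches through a common node
  obtain ⟨τ, hτ⟩ : ∃ τ : List Bool, ¬ {z | node z (k z) = τ}.Countable := by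
    by_contra hcon
    push Not at hcon
    have h1 : (⋃ τ : List Bool, {z | node z (k z) = τ}).Countable := Set.countable_iUnion hcon
    have h2 : (⋃ τ : List Bool, {z | node z (k z) = τ}) = (univ : Set (ℕ → Bool)) :=
      Set.eq_univ_of_forall fun z => mem_iUnion.2 ⟨_, rfl⟩
    rw [h2] at h1
    have h3 : Countable (ℕ → Bool) := Set.countable_univ_iff.1 h1
    have h4 : Cardinal.mk (ℕ → Bool) = Cardinal.continuum := mk_branch
    have h5 : Cardinal.mk (ℕ → Bool) ≤ Cardinal.aleph0 := Cardinal.mk_le_aleph0_iff.2 h3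
    rw [h4] at h5
    exact absurd h5 (not_le.2 Cardinal.aleph0_lt_continuum)
  set M : Set (ℕ → Bool) := {z | node z (k z) = τ} with hM
  have hkM : ∀ z ∈ M, k z = τ.length := by
    intro z hz
    have : node z (k z) = τ := hz
    rw [← this, length_node]
  -- a uniform failure near every cluster point
  have key : ∀ y ∈ Cl s τ, ∃ O ∈ 𝓝 y, ∃ σ : Fin τ.length → Bool,
      {z | ∀ n, s (τ, n) ∈ O → ¬ ∀ i : Fin τ.length, h z n i = σ i}.Infinite := by
    intro y hy
    obtain ⟨U, hU⟩ := (𝓝 y).exists_antitone_basis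
    have h1 : ∀ z ∈ M, ∃ (m : ℕ) (σ : Fin τ.length → Bool),
        ∀ n, s (τ, n) ∈ U m → ¬ ∀ i : Fin τ.length, h z n i = σ i := by
      intro z hz
      have hz' : node z (k z) = τ := hz
      obtain ⟨O, hO, hOd⟩ := hk z (k z) le_rfl y (by rw [hz']; exact hy)
      obtain ⟨m, hm⟩ := hU.mem_iff.1 hO
      rw [hz', hkM z hz] at hOd
      unfold KDense at hOd
      push Not at hOd
      obtain ⟨σ, hσ⟩ := hOd
      refine ⟨m, σ, fun n hn hcon => ?_⟩
      obtain ⟨i, hi⟩ := hσ n (hm hn)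
      exact hi (hcon i)
    by_contra hcon'
    have hcon : ∀ p : ℕ × (Fin τ.length → Bool),
        ¬ {z | ∀ n, s (τ, n) ∈ U p.1 → ¬ ∀ i : Fin τ.length, h z n i = p.2 i}.Infinite :=
      fun p hp => hcon' ⟨U p.1, hU.mem p.1, p.2, hp⟩
    apply hτ
    have h2 : (⋃ p : ℕ × (Fin τ.length → Bool),
        {z | ∀ n, s (τ, n) ∈ U p.1 → ¬ ∀ i : Fin τ.length, h z n i = p.2 i}).Countable :=
      Set.countable_iUnion fun p =>
        (Set.not_infinite.1 (hcon p)).countable
    refine h2.mono ?_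
    intro z hz
    obtain ⟨m, σ, hmσ⟩ := h1 z hz
    exact mem_iUnion.2 ⟨(m, σ), hmσ⟩
  have hclosed : IsClosed (Cl s τ) := isClosed_setOfPred_clusterPt
  choose! O hO σ hσ using key
  obtain ⟨t, ht, htc⟩ := hclosed.isCompact.elim_nhds_subcover (fun y => interior (O y))
    fun y hy => interior_mem_nhds.2 (hO y hy)
  obtain ⟨g, hg, hg'⟩ := exists_reps t
    (fun y => {z | ∀ n, s (τ, n) ∈ O y → ¬ ∀ i : Fin τ.length, h z n i = σ y i})
    fun y hy => hσ y (ht y hy)
  -- independence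
  let ρ : (ℕ → Bool) → (ℕ → Bool) := fun z i =>
    if hz : ∃ y ∈ t, g y = z then (if hi : i < τ.length then σ hz.choose ⟨i, hi⟩ else false)
    else false
  have hρ : ∀ y ∈ t, ∀ i : Fin τ.length, ρ (g y) i = σ y i := by
    intro y hy i
    have hz : ∃ y' ∈ t, g y' = g y := ⟨y, hy, rfl⟩
    have h2 : hz.choose = y := hg' (hz.choose_spec.1) hy hz.choose_spec.2
    show (if hz : ∃ y' ∈ t, g y' = g y then
      (if hi : (i : ℕ) < τ.length then σ hz.choose ⟨i, hi⟩ else false) else false) = σ y i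
    rw [dif_pos hz, dif_pos i.2, h2]
  have hinf := h_spec (t.image g) ρ τ.length
  set N : Set ℕ := {n | ∀ z ∈ t.image g, ∀ i < τ.length, h z n i = ρ z i} with hN
  have hne : (atTop ⊓ 𝓟 N : Filter ℕ).NeBot := by
    rw [← Nat.cofinite_eq_atTop]
    exact cofinite_inf_principal_neBot_iff.2 hinf
  obtain ⟨y, _, hy⟩ := (isCompact_univ (X := K)).exists_mapClusterPt
    (u := fun n : ℕ => s (τ, n)) (f := atTop ⊓ 𝓟 N) (by simp)
  have hyCl : y ∈ Cl s τ := hy.mono inf_le_left
  obtain ⟨y', hy't, hyO⟩ := mem_iUnion₂.1 (htc hyCl)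
  have hfreq := hy.frequently (isOpen_interior.mem_nhds hyO)
  have h3 : ∃ᶠ n in atTop ⊓ 𝓟 N, s (τ, n) ∈ interior (O y') ∧ n ∈ N :=
    hfreq.and_eventually (mem_inf_of_right (mem_principal_self N))
  obtain ⟨n, hn, hnN⟩ := h3.exists
  refine hg y' hy't n (interior_subset hn) fun i => ?_
  rw [← hρ y' hy't i]
  exact hnN (g y') (Finset.mem_image_of_mem g hy't) i i.2

end Pool.Agent.Lib.P34c5b1
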